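import Pool.Agent.H52.PH.QRD

/-! The Caccioppoli inequality for quasiregular maps. -/

open MeasureTheory Set Metric Filter Topology ContDiff Complex
open scoped ENNReal

namespace Pool.Agent.H42.PH
open Pool.Agent.H52.PH

theorem st_bdd : ∃ c : ℝ, 0 < c ∧ ∀ u, |deriv Real.smoothTransition u| ≤ c := by
  have hs : ContDiff ℝ ∞ Real.smoothTransition := Real.smoothTransition.contDiff
  have hc : Continuous (deriv Real.smoothTransition) := hs.continuous_deriv (by simp)
  obtain ⟨C, hC⟩ := isCompact_Icc.exists_bound_of_continuousOn (s := Icc (0 : ℝ) 1) hc.continuousOn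
  refine ⟨max C 1, by positivity, fun u => ?_⟩
  by_cases hu : u ∈ Icc (0 : ℝ) 1
  · exact (hC u hu).trans (le_max_left _ _)
  · have h0 : deriv Real.smoothTransition u = 0 := by
      rw [mem_Icc, not_and_or, not_le, not_le] at hu
      rcases hu with hu | hu
      · have : Real.smoothTransition =ᶠ[𝓝 u] fun _ => 0 := by
          filter_upwards [Iio_mem_nhds hu] with v hv
          exact Real.smoothTransition.zero_of_nonpos (le_of_lt hv)
        rw [this.deriv_eq]; simp
      · have : Real.smoothTransition =ᶠ[𝓝 u] fun _ => 1 := by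
          filter_upwards [Ioi_mem_nhds hu] with v hv
          exact Real.smoothTransition.one_of_one_le (le_of_lt hv)
        rw [this.deriv_eq]; simp
    rw [h0, abs_zero]; positivity

/-- Cutoff functions between two discs. -/
theorem exists_cutoff : ∃ C₀ : ℝ, 0 < C₀ ∧ ∀ (x : ℂ) (r R : ℝ), 0 < r → r < R →
    ∃ η : ℂ → ℝ, ContDiff ℝ ∞ η ∧ HasCompactSupport η ∧ tsupport η ⊆ ball x R ∧
      (∀ z, 0 ≤ η z ∧ η z ≤ 1) ∧ (∀ z ∈ ball x r, η z = 1) ∧
      ∀ z, ‖fderiv ℝ η z‖ ≤ C₀ / (R - r) := by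
  obtain ⟨c, hc0, hc⟩ := st_bdd
  refine ⟨4 * c, by positivity, fun x r R hr hrR => ?_⟩
  set R' : ℝ := (r + R) / 2 with hR'
  have h1 : r < R' := by rw [hR']; linarith
  have h2 : R' < R := by rw [hR']; linarith
  have h3 : 0 < R' ^ 2 - r ^ 2 := by nlinarith
  set q : ℂ → ℝ := fun z => (R' ^ 2 - ‖z - x‖ ^ 2) / (R' ^ 2 - r ^ 2) with hq
  have hqs : ContDiff ℝ ∞ q := by
    have : ContDiff ℝ ∞ fun z : ℂ => ‖z - x‖ ^ 2 := (contDiff_id.sub contDiff_const).norm_sq ℝ
    exact (contDiff_const.sub this).div_const _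
  have hqd : ∀ z, HasFDerivAt q ((R' ^ 2 - r ^ 2)⁻¹ • -((2 : ℝ) • innerSL ℝ (z - x))) z := by
    intro z
    have e1 : HasFDerivAt (fun z : ℂ => ‖z - x‖ ^ 2) ((2 : ℝ) • innerSL ℝ (z - x)) z := by
      have e2 := (hasStrictFDerivAt_norm_sq (z - x)).hasFDerivAt.comp z
        ((hasFDerivAt_id (𝕜 := ℝ) z).sub_const x)
      refine e2.congr_fderiv ?_
      ext
      all_goals simp [two_smul]
    have e3 := (e1.const_sub (R' ^ 2)).const_mul (R' ^ 2 - r ^ 2)⁻¹
    refine e3.congr_of_eventuallyEq (Eventually.of_forall fun y => ?_)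
    simp only [hq]
    rw [div_eq_inv_mul]
  have hst : ContDiff ℝ ∞ Real.smoothTransition := Real.smoothTransition.contDiff
  set η : ℂ → ℝ := fun z => Real.smoothTransition (q z) with hη
  have hηs : ContDiff ℝ ∞ η := hst.comp hqs
  have hz0 : ∀ z, R' ≤ ‖z - x‖ → η z = 0 := by
    intro z hz
    refine Real.smoothTransition.zero_of_nonpos ?_
    simp only [hq]
    refine div_nonpos_of_nonpos_of_nonneg ?_ h3.le
    have : 0 < R' := by linarith
    nlinarith
  have hts : tsupport η ⊆ closedBall x R' := by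
    refine closure_minimal (fun z hz => ?_) isClosed_closedBall
    rw [mem_closedBall_iff_norm]
    by_contra hcon
    exact hz (hz0 z (not_le.1 hcon).le)
  refine ⟨η, hηs, ?_, hts.trans (closedBall_subset_ball h2), fun z =>
    ⟨Real.smoothTransition.nonneg _, Real.smoothTransition.le_one _⟩, fun z hz => ?_, fun z => ?_⟩
  · exact (isCompact_closedBall x R').of_isClosed_subset (isClosed_tsupport _) hts
  · refine Real.smoothTransition.one_of_one_le ?_
    simp only [hq]
    rw [le_div_iff₀ h3]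
    rw [mem_ball_iff_norm] at hz
    have := norm_nonneg (z - x)
    nlinarith
  · by_cases hz : ‖z - x‖ ≤ R'
    · have hd : HasFDerivAt η (deriv Real.smoothTransition (q z) •
          ((R' ^ 2 - r ^ 2)⁻¹ • -((2 : ℝ) • innerSL ℝ (z - x)))) z :=
        ((hst.differentiable (by simp)) (q z)).hasDerivAt.comp_hasFDerivAt z (hqd z)
      rw [hd.fderiv, norm_smul, norm_smul, norm_neg, norm_smul, innerSL_apply_norm, norm_inv,
        Real.norm_of_nonneg h3.le, Real.norm_eq_abs, Real.norm_eq_abs, abs_two]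
      have h4 : (R' ^ 2 - r ^ 2)⁻¹ * (2 * ‖z - x‖) ≤ 4 / (R - r) := by
        rw [inv_mul_eq_div, div_le_div_iff₀ h3 (by linarith)]
        have h5 : R' ^ 2 - r ^ 2 = (R - r) / 2 * (R' + r) := by rw [hR']; ring
        rw [h5]
        nlinarith [norm_nonneg (z - x)]
      calc |deriv Real.smoothTransition (q z)| * ((R' ^ 2 - r ^ 2)⁻¹ * (2 * ‖z - x‖))
          ≤ c * (4 / (R - r)) := by
            refine mul_le_mul (hc _) h4 ?_ hc0.le
            exact mul_nonneg (inv_nonneg.2 h3.le) (by positivity)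
        _ = 4 * c / (R - r) := by ring
    · have h5 : z ∉ tsupport η := fun h => hz (mem_closedBall_iff_norm.1 (hts h))
      rw [fderiv_eq_zero_of_notMem_tsupport h5, norm_zero]
      exact div_nonneg (by positivity) (by linarith)

section smooth

variable {η : ℂ → ℝ} {φ : ℂ → ℂ}

/-- the mixed term -/
noncomputable def mix (L : ℂ →L[ℝ] ℝ) (D : ℂ →L[ℝ] ℂ) : ℝ := L 1 * (D I).im - L I * (D 1).im

theorem abs_mix_le (L : ℂ →L[ℝ] ℝ) (D : ℂ →L[ℝ] ℂ) : |mix L D| ≤ 2 * ‖L‖ * ‖D‖ := by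
  have b1 : ‖L 1‖ ≤ ‖L‖ := by simpa using L.le_opNorm 1
  have b2 : ‖L I‖ ≤ ‖L‖ := by simpa using L.le_opNorm I
  have c1 : ‖D 1‖ ≤ ‖D‖ := by simpa using D.le_opNorm 1
  have c2 : ‖D I‖ ≤ ‖D‖ := by simpa using D.le_opNorm I
  have d1 := (abs_im_le_norm (D 1)).trans c1
  have d2 := (abs_im_le_norm (D I)).trans c2
  rw [Real.norm_eq_abs] at b1 b2
  unfold mix
  calc |L 1 * (D I).im - L I * (D 1).im| ≤ |L 1 * (D I).im| + |L I * (D 1).im| := abs_sub _ _
    _ = |L 1| * |(D I).im| + |L I| * |(D 1).im| := by rw [abs_mul, abs_mul]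
    _ ≤ ‖L‖ * ‖D‖ + ‖L‖ * ‖D‖ := by gcongr
    _ = _ := by ring

theorem jac_smooth (hη : ContDiff ℝ ∞ η) (hc : HasCompactSupport η) (hφ : ContDiff ℝ ∞ φ)
    (c : ℂ) : ∫ z, (η z) ^ 2 * jac (fderiv ℝ φ z) =
      -2 * ∫ z, η z * (φ z - c).re * mix (fderiv ℝ η z) (fderiv ℝ φ z) := by
  set f1 : ℂ → ℝ := fun z => (φ z - c).re with hf1
  set f2 : ℂ → ℝ := fun z => (φ z).im with hf2
  have hφd : ∀ z, HasFDerivAt φ (fderiv ℝ φ z) z := fun z =>
    ((hφ.differentiable (by simp)) z).hasFDerivAt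
  have hs1 : ContDiff ℝ ∞ f1 := reCLM.contDiff.comp (hφ.sub contDiff_const)
  have hs2 : ContDiff ℝ ∞ f2 := imCLM.contDiff.comp hφ
  have hd1 : ∀ z v, fderiv ℝ f1 z v = (fderiv ℝ φ z v).re := by
    intro z v
    have := (reCLM.hasFDerivAt (x := φ z - c)).comp z ((hφd z).sub_const c)
    have h2 : HasFDerivAt f1 (reCLM.comp (fderiv ℝ φ z)) z := this
    rw [h2.fderiv]; rfl
  have hd2 : ∀ z v, fderiv ℝ f2 z v = (fderiv ℝ φ z v).im := by
    intro z v
    have := (imCLM.hasFDerivAt (x := φ z)).comp z (hφd z)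
    have h2 : HasFDerivAt f2 (imCLM.comp (fderiv ℝ φ z)) z := this
    rw [h2.fderiv]; rfl
  set a : ℂ → ℝ := fun z => (η z) ^ 2 * f1 z with ha
  have has : ContDiff ℝ ∞ a := (hη.pow 2).mul hs1
  have hac : HasCompactSupport a := by
    have : HasCompactSupport fun z => (η z) ^ 2 := by
      have h := hc.mul_left (f := η) (f' := η)
      refine h.mono ?_
      intro z hz
      simpa [pow_two] using hz
    exact this.mul_right
  have hdv : ∀ v : ℂ, ContDiff ℝ ∞ fun z => fderiv ℝ f2 z v := fun v =>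
    (hs2.fderiv_right (m := ∞) (by simp)).clm_apply contDiff_const
  have i1 := smooth_ibp has hac (hdv I) 1
  have i2 := smooth_ibp has hac (hdv 1) I
  have hsym : ∀ z, fderiv ℝ (fun z => fderiv ℝ f2 z I) z 1 = fderiv ℝ (fun z => fderiv ℝ f2 z 1) z I := by
    intro z
    have h2d : DifferentiableAt ℝ (fderiv ℝ f2) z :=
      ((hs2.fderiv_right (m := ∞) (by simp)).differentiable (by simp)) z
    have e : ∀ v w : ℂ, fderiv ℝ (fun z => fderiv ℝ f2 z v) z w = fderiv ℝ (fderiv ℝ f2) z w v := by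
      intro v w
      rw [fderiv_clm_apply h2d (differentiableAt_const _)]
      simp
    rw [e, e]
    exact (hs2.contDiffAt (x := z)).isSymmSndFDerivAt (by simp; exact ENat.LEInfty.out) 1 I
  have hda : ∀ z v, fderiv ℝ a z v = (η z) ^ 2 * fderiv ℝ f1 z v + 2 * η z * fderiv ℝ η z v * f1 z := by
    intro z v
    have e1 : HasFDerivAt η (fderiv ℝ η z) z := ((hη.differentiable (by simp)) z).hasFDerivAt
    have e2 : HasFDerivAt f1 (fderiv ℝ f1 z) z := ((hs1.differentiable (by simp)) z).hasFDerivAt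
    have e3 := (e1.pow 2).mul e2
    have e4 : HasFDerivAt a _ z := e3
    rw [e4.fderiv]
    simp
    ring
  have hcη : ∀ v : ℂ, Continuous fun z => fderiv ℝ η z v := fun v =>
    (hη.continuous_fderiv (by simp)).clm_apply continuous_const
  have hcφ : ∀ v : ℂ, Continuous fun z => fderiv ℝ φ z v := fun v =>
    (hφ.continuous_fderiv (by simp)).clm_apply continuous_const
  have hca : ∀ v : ℂ, Continuous fun z => fderiv ℝ a z v := fun v =>
    (has.continuous_fderiv (by simp)).clm_apply continuous_const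
  have hcf : ∀ v : ℂ, Continuous fun z => fderiv ℝ f2 z v := fun v => (hdv v).continuous
  have j1 : ∀ v w : ℂ, Integrable fun z => fderiv ℝ a z v • fderiv ℝ f2 z w := by
    intro v w
    refine ((hca v).smul (hcf w)).integrable_of_hasCompactSupport ?_
    have : HasCompactSupport fun z => fderiv ℝ a z v := hac.fderiv_apply (𝕜 := ℝ) v
    exact this.smul_right
  have hcm : Continuous fun z => mix (fderiv ℝ η z) (fderiv ℝ φ z) := by
    unfold mix
    exact ((hcη 1).mul (continuous_im.comp (hcφ I))).sub ((hcη I).mul (continuous_im.comp (hcφ 1)))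
  have j2 : Integrable fun z => η z * (φ z - c).re * mix (fderiv ℝ η z) (fderiv ℝ φ z) := by
    refine ((hη.continuous.mul hs1.continuous).mul hcm).integrable_of_hasCompactSupport ?_
    have h1 : HasCompactSupport fun z => η z * f1 z := hc.mul_right
    exact h1.mul_right
  have key : ∫ z, (fderiv ℝ a z 1 • fderiv ℝ f2 z I - fderiv ℝ a z I • fderiv ℝ f2 z 1) = 0 := by
    rw [integral_sub (j1 _ _) (j1 _ _), i1, i2]
    simp only [hsym, sub_self]
  have e : ∀ z, (η z) ^ 2 * jac (fderiv ℝ φ z) =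
      (fderiv ℝ a z 1 • fderiv ℝ f2 z I - fderiv ℝ a z I • fderiv ℝ f2 z 1) -
        2 * (η z * (φ z - c).re * mix (fderiv ℝ η z) (fderiv ℝ φ z)) := by
    intro z
    rw [hda, hda, hd1, hd1, hd2, hd2]
    simp only [jac, mix, smul_eq_mul, hf1]
    ring
  simp_rw [e]
  have j3 : Integrable fun z => fderiv ℝ a z 1 • fderiv ℝ f2 z I - fderiv ℝ a z I • fderiv ℝ f2 z 1 :=
    (j1 1 I).sub (j1 I 1)
  rw [integral_sub j3 (j2.const_mul 2), key, integral_const_mul]
  ring

end smooth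

/-- `L²` convergence of `Φ z (φ_n z)` for uniformly Lipschitz `Φ z`. -/
theorem tendsto_eLpNorm_weight {X Y : Type*} [NormedAddCommGroup X] [NormedAddCommGroup Y]
    {μ : Measure ℂ} {q : ℝ≥0∞} {Φ : ℂ → X → Y} {L : ℝ}
    (hΦ : ∀ᵐ z ∂μ, ∀ x y, ‖Φ z x - Φ z y‖ ≤ L * ‖x - y‖) {g : ℂ → X} {φ : ℕ → ℂ → X}
    (h : Tendsto (fun n => eLpNorm (fun z => φ n z - g z) q μ) atTop (𝓝 0)) :
    Tendsto (fun n => eLpNorm (fun z => Φ z (φ n z) - Φ z (g z)) q μ) atTop (𝓝 0) := by
  have hb : ∀ n, eLpNorm (fun z => Φ z (φ n z) - Φ z (g z)) q μ ≤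
      ENNReal.ofReal L * eLpNorm (fun z => φ n z - g z) q μ := by
    intro n
    refine eLpNorm_le_mul_eLpNorm_of_ae_le_mul ?_ _
    filter_upwards [hΦ] with z hz
    exact hz _ _
  refine tendsto_of_tendsto_of_tendsto_of_le_of_le tendsto_const_nhds ?_ (fun _ => bot_le) hb
  have := ENNReal.Tendsto.const_mul (a := ENNReal.ofReal L) h (Or.inr ENNReal.ofReal_ne_top)
  simpa using this

/-- the real number `(L v).re` as a linear function of `L` -/
noncomputable def reA (v : ℂ) : (ℂ →L[ℝ] ℂ) →L[ℝ] ℝ := reCLM.comp (ContinuousLinearMap.apply ℝ ℂ v)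
/-- the real number `(L v).im` as a linear function of `L` -/
noncomputable def imA (v : ℂ) : (ℂ →L[ℝ] ℂ) →L[ℝ] ℝ := imCLM.comp (ContinuousLinearMap.apply ℝ ℂ v)

/-- the polarized Jacobian -/
noncomputable def jacB : (ℂ →L[ℝ] ℂ) →L[ℝ] (ℂ →L[ℝ] ℂ) →L[ℝ] ℝ :=
  (ContinuousLinearMap.mul ℝ ℝ).bilinearComp (reA 1) (imA I) -
    (ContinuousLinearMap.mul ℝ ℝ).bilinearComp (imA 1) (reA I)

theorem jacB_self (D : ℂ →L[ℝ] ℂ) : jacB D D = jac D := rfl

theorem jac_smul (t : ℝ) (D : ℂ →L[ℝ] ℂ) : jac (t • D) = t ^ 2 * jac D := by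
  unfold jac
  simp
  ring

theorem mix_sub (L : ℂ →L[ℝ] ℝ) (D D' : ℂ →L[ℝ] ℂ) : mix L D - mix L D' = mix L (D - D') := by
  unfold mix
  simp
  ring

theorem continuous_mix {L : ℂ → ℂ →L[ℝ] ℝ} {D : ℂ → ℂ →L[ℝ] ℂ} (hL : Continuous L)
    (hD : Continuous D) : Continuous fun z => mix (L z) (D z) := by
  unfold mix
  exact ((hL.clm_apply continuous_const).mul
    (continuous_im.comp (hD.clm_apply continuous_const))).sub
    ((hL.clm_apply continuous_const).mul (continuous_im.comp (hD.clm_apply continuous_const)))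

theorem aesm_mix {μ : Measure ℂ} {L : ℂ → ℂ →L[ℝ] ℝ} {D : ℂ → ℂ →L[ℝ] ℂ} (hL : Continuous L)
    (hD : AEStronglyMeasurable D μ) : AEStronglyMeasurable (fun z => mix (L z) (D z)) μ := by
  have h1 : ∀ v : ℂ, AEStronglyMeasurable (fun z => (D z v).im) μ := fun v =>
    (imA v).continuous.comp_aestronglyMeasurable hD
  have h2 : ∀ v : ℂ, AEStronglyMeasurable (fun z => L z v) μ := fun v =>
    (hL.clm_apply continuous_const).aestronglyMeasurable
  exact ((h2 1).mul (h1 I)).sub ((h2 I).mul (h1 1))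

/-- The integration by parts formula for Sobolev maps. -/
theorem jac_sob {U : Set ℂ} {g : ℂ → ℂ} {D : ℂ → ℂ →L[ℝ] ℂ} (h : Sob 2 U g D) {η : ℂ → ℝ}
    (hη : ContDiff ℝ ∞ η) (hc : HasCompactSupport η) (hU : tsupport η ⊆ U) (c : ℂ) :
    ∫ z in tsupport η, (η z) ^ 2 * jac (D z) =
      -2 * ∫ z in tsupport η, η z * (g z - c).re * mix (fderiv ℝ η z) (D z) := by
  set K := tsupport η with hK
  have hKc : IsCompact K := hc
  set μ := volume.restrict K with hμ
  obtain ⟨φ, hφ, h1, h2⟩ := h.approx K hU hKc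
  have hcη := hη.continuous
  have hcη' := hη.continuous_fderiv (n := ∞) (by simp)
  obtain ⟨C1, hC1⟩ := hKc.exists_bound_of_continuousOn hcη.continuousOn
  obtain ⟨C2, hC2⟩ := hKc.exists_bound_of_continuousOn hcη'.continuousOn
  have mg := h.memLp hU hKc
  have mD := h.memLpD hU hKc
  -- first factor
  have a1 : Tendsto (fun n => eLpNorm (fun z => η z • fderiv ℝ (φ n) z - η z • D z) 2 μ)
      atTop (𝓝 0) := by
    refine tendsto_eLpNorm_weight (Φ := fun z L => η z • L) (L := C1) ?_ h2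
    rw [hμ, ae_restrict_iff' hKc.measurableSet]
    refine Eventually.of_forall fun z hz x y => ?_
    rw [← smul_sub, norm_smul]
    exact mul_le_mul_of_nonneg_right (hC1 z hz) (norm_nonneg _)
  have a2 : ∀ n, MemLp (fun z => η z • fderiv ℝ (φ n) z) 2 μ := fun n =>
    memLp_continuous (hcη.smul ((hφ n).continuous_fderiv (by simp))) hKc 2
  have a3 : MemLp (fun z => η z • D z) 2 μ := by
    refine memLp_of_tendsto hKc (fun n => hcη.smul ((hφ n).continuous_fderiv (by simp))) ?_ a1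
    exact hcη.aestronglyMeasurable.smul mD.aestronglyMeasurable
  have t1 := tendsto_integral_bilin jacB a3 a2 a1 a3 a2 a1
  simp only [jacB_self, jac_smul] at t1
  -- second factors
  have b1 : Tendsto (fun n => eLpNorm (fun z => η z * (φ n z - c).re - η z * (g z - c).re) 2 μ)
      atTop (𝓝 0) := by
    refine tendsto_eLpNorm_weight (Φ := fun z w => η z * (w - c).re) (L := C1) ?_ h1
    rw [hμ, ae_restrict_iff' hKc.measurableSet]
    refine Eventually.of_forall fun z hz x y => ?_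
    rw [← mul_sub, norm_mul, ← sub_re, sub_sub_sub_cancel_right]
    exact mul_le_mul (hC1 z hz) (abs_re_le_norm _) (norm_nonneg _) ((norm_nonneg _).trans (hC1 z hz))
  have b2' : ∀ n, Continuous fun z => η z * (φ n z - c).re := fun n =>
    hcη.mul (continuous_re.comp ((hφ n).continuous.sub continuous_const))
  have b3 : MemLp (fun z => η z * (g z - c).re) 2 μ := by
    refine memLp_of_tendsto hKc b2' ?_ b1
    exact hcη.aestronglyMeasurable.mul (continuous_re.comp_aestronglyMeasurable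
      (mg.aestronglyMeasurable.sub aestronglyMeasurable_const))
  have c1 : Tendsto (fun n => eLpNorm (fun z => mix (fderiv ℝ η z) (fderiv ℝ (φ n) z) -
      mix (fderiv ℝ η z) (D z)) 2 μ) atTop (𝓝 0) := by
    refine tendsto_eLpNorm_weight (Φ := fun z L => mix (fderiv ℝ η z) L) (L := 2 * C2) ?_ h2
    rw [hμ, ae_restrict_iff' hKc.measurableSet]
    refine Eventually.of_forall fun z hz x y => ?_
    rw [mix_sub, Real.norm_eq_abs]
    refine (abs_mix_le _ _).trans ?_
    have := hC2 z hz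
    gcongr
  have c2' : ∀ n, Continuous fun z => mix (fderiv ℝ η z) (fderiv ℝ (φ n) z) := fun n =>
    continuous_mix hcη' ((hφ n).continuous_fderiv (by simp))
  have c3 : MemLp (fun z => mix (fderiv ℝ η z) (D z)) 2 μ :=
    memLp_of_tendsto hKc c2' (aesm_mix hcη' mD.aestronglyMeasurable) c1
  have t2 := tendsto_integral_bilin (ContinuousLinearMap.mul ℝ ℝ) b3
    (fun n => memLp_continuous (b2' n) hKc 2) b1 c3 (fun n => memLp_continuous (c2' n) hKc 2) c1
  simp only [ContinuousLinearMap.mul_apply'] at t2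
  have e1 : ∀ n, ∫ z, (η z) ^ 2 * jac (fderiv ℝ (φ n) z) ∂μ =
      ∫ z, (η z) ^ 2 * jac (fderiv ℝ (φ n) z) := fun n => by
    refine setIntegral_tsupport fun z hz => ?_
    rw [image_eq_zero_of_notMem_tsupport hz]
    simp
  have e2 : ∀ n, ∫ z, η z * (φ n z - c).re * mix (fderiv ℝ η z) (fderiv ℝ (φ n) z) ∂μ =
      ∫ z, η z * (φ n z - c).re * mix (fderiv ℝ η z) (fderiv ℝ (φ n) z) := fun n => by
    refine setIntegral_tsupport fun z hz => ?_
    rw [image_eq_zero_of_notMem_tsupport hz]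
    simp
  simp only [e1] at t1
  simp only [e2] at t2
  have t3 := t2.const_mul (-2)
  have e3 : ∀ n, -2 * ∫ z, η z * (φ n z - c).re * mix (fderiv ℝ η z) (fderiv ℝ (φ n) z) =
      ∫ z, (η z) ^ 2 * jac (fderiv ℝ (φ n) z) := fun n => (jac_smooth hη hc (hφ n) c).symm
  simp only [e3] at t3
  exact tendsto_nhds_unique t1 t3

/-- E1. Caccioppoli. -/
theorem qr_caccioppoli (K : ℝ) (hK : 1 ≤ K) : ∃ C : ℝ, 0 < C ∧
    ∀ (U : Set ℂ) (g : ℂ → ℂ) (D : ℂ → ℂ →L[ℝ] ℂ) (x : ℂ) (r R : ℝ) (c : ℂ), IsOpen U →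
      Sob 2 U g D → (∀ᵐ z ∂volume.restrict U, QR K (D z)) → 0 < r → r < R → closedBall x R ⊆ U →
      ∫ z in ball x r, -jac (D z) ≤ C / (R - r) ^ 2 * ∫ z in ball x R, ‖g z - c‖ ^ 2 := by
  have hK0 : 0 < K := by linarith
  obtain ⟨C₀, hC₀, hcut⟩ := exists_cutoff
  refine ⟨16 * K * C₀ ^ 2, by positivity, ?_⟩
  intro U g D x r R c hU h hQ hr hrR hb
  obtain ⟨η, hη, hc, hts, h01, hη1, hηd⟩ := hcut x r R hr hrR
  have hRr : 0 < R - r := by linarith
  set S := tsupport η with hS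
  have hSc : IsCompact S := hc
  have hSU : S ⊆ U := hts.trans (ball_subset_closedBall.trans hb)
  have hBc : IsCompact (closedBall x R) := isCompact_closedBall x R
  have mD := h.memLpD hb hBc
  have mg := h.memLp hb hBc
  have : IsFiniteMeasure (volume.restrict (closedBall x R)) :=
    ⟨by rw [Measure.restrict_apply_univ]; exact hBc.measure_lt_top⟩
  have hid := jac_sob h hη hc hSU c
  obtain ⟨i1, i2⟩ := sob_integrable h hSc hSU (t := S) Subset.rfl
  have i3 : IntegrableOn (fun z => ‖g z - c‖ ^ 2) (closedBall x R) :=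
    (mg.sub (memLp_const c)).integrable_norm_pow (by norm_num)
  have hcη := hη.continuous
  have hcη' := hη.continuous_fderiv (n := ∞) (by simp)
  have hSR : S ⊆ closedBall x R := hts.trans ball_subset_closedBall
  have mDS := mD.mono_measure (Measure.restrict_mono hSR le_rfl)
  have mgS := (mg.sub (memLp_const c)).mono_measure (Measure.restrict_mono hSR le_rfl)
  -- the weighted integrand
  have j1 : IntegrableOn (fun z => (η z) ^ 2 * -jac (D z)) S := by
    refine i2.bdd_mul (c := 1) (hcη.pow 2).aestronglyMeasurable (Eventually.of_forall fun z => ?_)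
    rw [Real.norm_eq_abs, abs_of_nonneg (sq_nonneg _)]
    exact pow_le_one₀ (h01 z).1 (h01 z).2
  have j2 : IntegrableOn (fun z => ‖fderiv ℝ η z‖ ^ 2 * ‖g z - c‖ ^ 2) S := by
    refine (i3.mono_set hSR).bdd_mul (c := (C₀ / (R - r)) ^ 2)
      (hcη'.norm.pow 2).aestronglyMeasurable (Eventually.of_forall fun z => ?_)
    rw [Real.norm_eq_abs, abs_of_nonneg (sq_nonneg _)]
    exact pow_le_pow_left₀ (norm_nonneg _) (hηd z) 2
  have hQS : ∀ᵐ z ∂volume.restrict S, QR K (D z) := ae_restrict_of_ae_restrict_of_subset hSU hQ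
  have hpt : ∀ᵐ z ∂volume.restrict S,
      2 * (η z * (g z - c).re * mix (fderiv ℝ η z) (D z)) ≤
        (1 / 2) * ((η z) ^ 2 * -jac (D z)) + 8 * K * (‖fderiv ℝ η z‖ ^ 2 * ‖g z - c‖ ^ 2) := by
    filter_upwards [hQS] with z hz
    unfold QR at hz
    have b1 := abs_mix_le (fderiv ℝ η z) (D z)
    have b2 := abs_re_le_norm (g z - c)
    have b3 := (h01 z).1
    have b4 : 2 * (η z * (g z - c).re * mix (fderiv ℝ η z) (D z)) ≤
        4 * (η z * ‖D z‖) * (‖fderiv ℝ η z‖ * ‖g z - c‖) := by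
      calc 2 * (η z * (g z - c).re * mix (fderiv ℝ η z) (D z))
          ≤ 2 * |η z * (g z - c).re * mix (fderiv ℝ η z) (D z)| := by
            gcongr; exact le_abs_self _
        _ = 2 * (η z * |(g z - c).re| * |mix (fderiv ℝ η z) (D z)|) := by
            rw [abs_mul, abs_mul, abs_of_nonneg b3]
        _ ≤ 2 * (η z * ‖g z - c‖ * (2 * ‖fderiv ℝ η z‖ * ‖D z‖)) := by gcongr
        _ = _ := by ring
    refine b4.trans ?_
    have b5 : (η z * ‖D z‖) ^ 2 ≤ K * ((η z) ^ 2 * -jac (D z)) := by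
      rw [mul_pow]
      calc (η z) ^ 2 * ‖D z‖ ^ 2 ≤ (η z) ^ 2 * (K * -jac (D z)) := by gcongr
        _ = _ := by ring
    set A := η z * ‖D z‖
    set B := ‖fderiv ℝ η z‖ * ‖g z - c‖
    have b6 : 4 * A * B ≤ A ^ 2 / (2 * K) + 8 * K * B ^ 2 := by
      have e : A ^ 2 / (2 * K) + 8 * K * B ^ 2 - 4 * A * B = (A - 4 * K * B) ^ 2 / (2 * K) := by
        field_simp; ring
      have : 0 ≤ (A - 4 * K * B) ^ 2 / (2 * K) := by positivity
      linarith
    have b7 : A ^ 2 / (2 * K) ≤ (1 / 2) * ((η z) ^ 2 * -jac (D z)) := by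
      rw [div_le_iff₀ (by positivity)]
      linarith
    have b8 : B ^ 2 = ‖fderiv ℝ η z‖ ^ 2 * ‖g z - c‖ ^ 2 := mul_pow _ _ _
    rw [← b8]
    linarith
  have j3 : IntegrableOn (fun z => η z * (g z - c).re * mix (fderiv ℝ η z) (D z)) S := by
    have m1 : MemLp (fun z => mix (fderiv ℝ η z) (D z)) 2 (volume.restrict S) := by
      refine MemLp.of_le_mul (c := 2 * (C₀ / (R - r))) mDS
        (aesm_mix hcη' mDS.aestronglyMeasurable) (Eventually.of_forall fun z => ?_)
      refine (abs_mix_le _ _).trans ?_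
      have := hηd z
      gcongr
    have m2 : MemLp (fun z => η z * (g z - c).re) 2 (volume.restrict S) := by
      refine MemLp.of_le_mul (c := 1) mgS (hcη.aestronglyMeasurable.mul
        (continuous_re.comp_aestronglyMeasurable mgS.aestronglyMeasurable))
        (Eventually.of_forall fun z => ?_)
      rw [norm_mul]
      have b1 : ‖η z‖ ≤ 1 := by
        rw [Real.norm_eq_abs, abs_of_nonneg (h01 z).1]
        exact (h01 z).2
      exact mul_le_mul b1 (abs_re_le_norm _) (norm_nonneg _) zero_le_one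
    have := integrable_bilin (ContinuousLinearMap.mul ℝ ℝ) m2 m1
    exact this
  have k1 : ∫ z in S, (η z) ^ 2 * -jac (D z) =
      ∫ z in S, 2 * (η z * (g z - c).re * mix (fderiv ℝ η z) (D z)) := by
    have e1 : ∫ z in S, (η z) ^ 2 * -jac (D z) = -∫ z in S, (η z) ^ 2 * jac (D z) := by
      rw [← integral_neg]
      congr 1
      funext z
      ring
    rw [e1, hid, integral_const_mul]
    ring
  have k2 : ∫ z in S, (η z) ^ 2 * -jac (D z) ≤ (1 / 2) * (∫ z in S, (η z) ^ 2 * -jac (D z)) +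
      8 * K * ∫ z in S, ‖fderiv ℝ η z‖ ^ 2 * ‖g z - c‖ ^ 2 := by
    calc ∫ z in S, (η z) ^ 2 * -jac (D z) =
          ∫ z in S, 2 * (η z * (g z - c).re * mix (fderiv ℝ η z) (D z)) := k1
      _ ≤ ∫ z in S, ((1 / 2) * ((η z) ^ 2 * -jac (D z)) +
            8 * K * (‖fderiv ℝ η z‖ ^ 2 * ‖g z - c‖ ^ 2)) :=
          integral_mono_ae (j3.const_mul 2) ((j1.const_mul _).add (j2.const_mul _)) hpt
      _ = _ := by
          rw [integral_add (j1.const_mul _) (j2.const_mul _), integral_const_mul,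
            integral_const_mul]
  have k3 : ∫ z in S, ‖fderiv ℝ η z‖ ^ 2 * ‖g z - c‖ ^ 2 ≤
      (C₀ / (R - r)) ^ 2 * ∫ z in ball x R, ‖g z - c‖ ^ 2 := by
    calc ∫ z in S, ‖fderiv ℝ η z‖ ^ 2 * ‖g z - c‖ ^ 2
        ≤ ∫ z in S, (C₀ / (R - r)) ^ 2 * ‖g z - c‖ ^ 2 := by
          refine integral_mono_ae j2 ((i3.mono_set hSR).const_mul _)
            (Eventually.of_forall fun z => ?_)
          have := hηd z
          simp only []
          gcongr
      _ = (C₀ / (R - r)) ^ 2 * ∫ z in S, ‖g z - c‖ ^ 2 := integral_const_mul _ _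
      _ ≤ (C₀ / (R - r)) ^ 2 * ∫ z in ball x R, ‖g z - c‖ ^ 2 :=
          mul_le_mul_of_nonneg_left (setIntegral_mono_set (i3.mono_set ball_subset_closedBall)
            (Eventually.of_forall fun z => sq_nonneg _) hts.eventuallyLE) (sq_nonneg _)
  have hnn : ∀ᵐ z ∂volume.restrict S, 0 ≤ (η z) ^ 2 * -jac (D z) := by
    filter_upwards [hQS] with z hz
    exact mul_nonneg (sq_nonneg _) (qr_jac_nonneg hK hz)
  have hBS : ball x r ⊆ S := by
    intro z hz
    refine subset_tsupport η ?_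
    rw [Function.mem_support, hη1 z hz]
    exact one_ne_zero
  have k4 : ∫ z in ball x r, -jac (D z) ≤ ∫ z in S, (η z) ^ 2 * -jac (D z) := by
    calc ∫ z in ball x r, -jac (D z) = ∫ z in ball x r, (η z) ^ 2 * -jac (D z) := by
          refine setIntegral_congr_fun measurableSet_ball fun z hz => ?_
          simp only [hη1 z hz]
          ring
      _ ≤ _ := setIntegral_mono_set j1 hnn hBS.eventuallyLE
  have k5 := mul_le_mul_of_nonneg_left k3 (by positivity : 0 ≤ 16 * K)
  calc ∫ z in ball x r, -jac (D z) ≤ ∫ z in S, (η z) ^ 2 * -jac (D z) := k4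
    _ ≤ 16 * K * ∫ z in S, ‖fderiv ℝ η z‖ ^ 2 * ‖g z - c‖ ^ 2 := by linarith
    _ ≤ 16 * K * ((C₀ / (R - r)) ^ 2 * ∫ z in ball x R, ‖g z - c‖ ^ 2) := k5
    _ = _ := by rw [div_pow]; ring

end Pool.Agent.H42.PH
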