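import Pool.Agent.H42.PH.Cacc

/-! The `L¹` sup bound for quasiregular maps. -/

open MeasureTheory Set Metric Filter Topology ContDiff Complex
open scoped ENNReal

namespace Pool.Agent.H42.PH
open Pool.Agent.H52.PH

theorem sob_int_sq {U : Set ℂ} {g : ℂ → ℂ} {D : ℂ → ℂ →L[ℝ] ℂ} (h : Sob 2 U g D) {x : ℂ} {R : ℝ}
    (hb : closedBall x R ⊆ U) (c : ℂ) : IntegrableOn (fun z => ‖g z - c‖ ^ 2) (closedBall x R) := by
  have hBc : IsCompact (closedBall x R) := isCompact_closedBall x R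
  have mg := h.memLp hb hBc
  have : IsFiniteMeasure (volume.restrict (closedBall x R)) :=
    ⟨by rw [Measure.restrict_apply_univ]; exact hBc.measure_lt_top⟩
  exact (mg.sub (memLp_const c)).integrable_norm_pow (by norm_num)

/-- the value at the centre is controlled by the `L²` norm -/
theorem qr_loc (K : ℝ) (hK : 1 ≤ K) : ∃ C : ℝ, 0 < C ∧
    ∀ (U : Set ℂ) (g : ℂ → ℂ) (D : ℂ → ℂ →L[ℝ] ℂ) (y : ℂ) (δ : ℝ) (c : ℂ), IsOpen U →
      Sob 2 U g D → ContinuousOn g U → (∀ᵐ z ∂volume.restrict U, QR K (D z)) → 0 < δ →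
      closedBall y δ ⊆ U → ‖g y - c‖ ^ 2 ≤ C / δ ^ 2 * ∫ z in ball y δ, ‖g z - c‖ ^ 2 := by
  have hK0 : 0 < K := by linarith
  obtain ⟨C₁, hC₁, H₁⟩ := qr_caccioppoli K hK
  obtain ⟨C₂, hC₂, H₂⟩ := qr_holder K hK
  have hpi := Real.pi_pos
  refine ⟨32 / Real.pi + 8 * C₂ ^ 2 * C₁, by positivity, ?_⟩
  intro U g D y δ c hU h hg hQ hδ hb
  have hb2 : closedBall y (δ / 2) ⊆ U := (closedBall_subset_closedBall (by linarith)).trans hb
  have e1 := H₁ U g D y (δ / 2) δ c hU h hQ (by positivity) (by linarith) hb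
  have e2 := H₂ U g D y (δ / 2) hU h hg hQ (by positivity) hb2
  set S := ∫ z in ball y δ, ‖g z - c‖ ^ 2 with hS
  set J := ∫ z in ball y (δ / 2), -jac (D z) with hJ
  have hJ0 : 0 ≤ J := by
    refine integral_nonneg_of_ae ?_
    filter_upwards [ae_restrict_of_ae_restrict_of_subset (ball_subset_closedBall.trans hb2) hQ]
      with z hz
    exact qr_jac_nonneg hK hz
  have e3 : ∀ z ∈ ball y (δ / 4), ‖g y - c‖ ^ 2 ≤ 2 * ‖g z - c‖ ^ 2 + 2 * (C₂ ^ 2 * J) := by
    intro z hz
    have hz' : ‖z - y‖ < δ / 4 := mem_ball_iff_norm.1 hz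
    have f1 := e2 y (mem_ball_self (by positivity)) z (ball_subset_ball (by linarith) hz)
    have f2 : (‖y - z‖ / (δ / 2)) ^ (1 / K) ≤ 1 := by
      refine Real.rpow_le_one (by positivity) ?_ (by positivity)
      rw [div_le_one (by positivity), norm_sub_rev]
      linarith
    have f3 : ‖g y - g z‖ ≤ C₂ * Real.sqrt J := by
      refine f1.trans ?_
      calc C₂ * (‖y - z‖ / (δ / 2)) ^ (1 / K) * Real.sqrt J ≤ C₂ * 1 * Real.sqrt J := by
            gcongr
        _ = _ := by ring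
    have f4 : ‖g y - c‖ ≤ ‖g z - c‖ + C₂ * Real.sqrt J := by
      have : g y - c = (g z - c) + (g y - g z) := by ring
      rw [this]
      exact (norm_add_le _ _).trans (add_le_add_right f3 _)
    have f5 : (C₂ * Real.sqrt J) ^ 2 = C₂ ^ 2 * J := by
      rw [mul_pow, Real.sq_sqrt hJ0]
    calc ‖g y - c‖ ^ 2 ≤ (‖g z - c‖ + C₂ * Real.sqrt J) ^ 2 :=
          pow_le_pow_left₀ (norm_nonneg _) f4 2
      _ ≤ 2 * ‖g z - c‖ ^ 2 + 2 * (C₂ * Real.sqrt J) ^ 2 := by
          nlinarith [sq_nonneg (‖g z - c‖ - C₂ * Real.sqrt J)]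
      _ = _ := by rw [f5]
  -- integrate over the small ball
  have hi : IntegrableOn (fun z => ‖g z - c‖ ^ 2) (closedBall y δ) := sob_int_sq h hb c
  have hi4 : IntegrableOn (fun z => ‖g z - c‖ ^ 2) (ball y (δ / 4)) :=
    hi.mono_set (ball_subset_closedBall.trans (closedBall_subset_closedBall (by linarith)))
  have hvol : volume.real (ball y (δ / 4)) = Real.pi * (δ / 4) ^ 2 := by
    rw [Measure.real, Complex.volume_ball]
    rw [ENNReal.toReal_mul, ENNReal.toReal_pow, ENNReal.toReal_ofReal (by positivity)]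
    rw [mul_comm]
    rfl
  have hfin : volume (ball y (δ / 4)) ≠ ⊤ := measure_ball_lt_top.ne
  have e4 : Real.pi * (δ / 4) ^ 2 * ‖g y - c‖ ^ 2 ≤ 2 * S + Real.pi * (δ / 4) ^ 2 * (2 * (C₂ ^ 2 * J)) := by
    calc Real.pi * (δ / 4) ^ 2 * ‖g y - c‖ ^ 2 = ∫ z in ball y (δ / 4), ‖g y - c‖ ^ 2 := by
          rw [setIntegral_const, hvol, smul_eq_mul]
      _ ≤ ∫ z in ball y (δ / 4), (2 * ‖g z - c‖ ^ 2 + 2 * (C₂ ^ 2 * J)) := by
          refine setIntegral_mono_on (integrableOn_const hfin)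
            ((hi4.const_mul 2).add (integrableOn_const hfin)) measurableSet_ball e3
      _ = 2 * (∫ z in ball y (δ / 4), ‖g z - c‖ ^ 2) +
            Real.pi * (δ / 4) ^ 2 * (2 * (C₂ ^ 2 * J)) := by
          rw [integral_add (hi4.const_mul 2) (integrableOn_const hfin), integral_const_mul,
            setIntegral_const, hvol, smul_eq_mul]
      _ ≤ _ := by
          have : ∫ z in ball y (δ / 4), ‖g z - c‖ ^ 2 ≤ S :=
            setIntegral_mono_set (hi.mono_set ball_subset_closedBall)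
              (Eventually.of_forall fun z => sq_nonneg _)
              (ball_subset_ball (by linarith)).eventuallyLE
          linarith
  have e5 : J ≤ 4 * C₁ / δ ^ 2 * S := by
    refine e1.trans (le_of_eq ?_)
    have : δ - δ / 2 = δ / 2 := by ring
    rw [this]
    field_simp
    ring
  have e6 : ‖g y - c‖ ^ 2 ≤ 32 / Real.pi / δ ^ 2 * S + 2 * (C₂ ^ 2 * J) := by
    have hv : 0 < Real.pi * (δ / 4) ^ 2 := by positivity
    have : Real.pi * (δ / 4) ^ 2 * ‖g y - c‖ ^ 2 ≤
        Real.pi * (δ / 4) ^ 2 * (32 / Real.pi / δ ^ 2 * S + 2 * (C₂ ^ 2 * J)) := by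
      refine e4.trans (le_of_eq ?_)
      field_simp
      ring
    exact le_of_mul_le_mul_left this hv
  calc ‖g y - c‖ ^ 2 ≤ 32 / Real.pi / δ ^ 2 * S + 2 * (C₂ ^ 2 * J) := e6
    _ ≤ 32 / Real.pi / δ ^ 2 * S + 2 * (C₂ ^ 2 * (4 * C₁ / δ ^ 2 * S)) := by gcongr
    _ = _ := by field_simp; ring

/-- E2. `L¹` sup bound. -/
theorem qr_sup (K : ℝ) (hK : 1 ≤ K) : ∃ C : ℝ, 0 < C ∧
    ∀ (U : Set ℂ) (g : ℂ → ℂ) (D : ℂ → ℂ →L[ℝ] ℂ) (x : ℂ) (R : ℝ) (c : ℂ), IsOpen U →
      Sob 2 U g D → ContinuousOn g U → (∀ᵐ z ∂volume.restrict U, QR K (D z)) → 0 < R →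
      closedBall x R ⊆ U → ∀ y ∈ ball x (R / 2),
        ‖g y - c‖ ≤ C / R ^ 2 * ∫ z in ball x R, ‖g z - c‖ := by
  obtain ⟨C₁, hC₁, H₁⟩ := qr_loc K hK
  refine ⟨64 * C₁, by positivity, ?_⟩
  intro U g D x R c hU h hg hQ hR hb y hy
  set f : ℂ → ℝ := fun z => (R - ‖z - x‖) ^ 2 * ‖g z - c‖ with hf
  have hgc : ContinuousOn (fun z => ‖g z - c‖) (closedBall x R) :=
    ((hg.mono hb).sub continuousOn_const).norm
  have hfc : ContinuousOn f (closedBall x R) := by
    refine ContinuousOn.mul ?_ hgc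
    exact (continuous_const.sub ((continuous_id.sub continuous_const).norm)).continuousOn.pow 2
  obtain ⟨y₀, hy₀, hmax⟩ := (isCompact_closedBall x R).exists_isMaxOn
    ⟨x, mem_closedBall_self hR.le⟩ hfc
  set I₁ := ∫ z in ball x R, ‖g z - c‖ with hI
  have hii : IntegrableOn (fun z => ‖g z - c‖) (closedBall x R) :=
    hgc.integrableOn_compact (isCompact_closedBall x R)
  have hI0 : 0 ≤ I₁ := integral_nonneg fun z => norm_nonneg _
  have hQ0 : 0 ≤ f y₀ := mul_nonneg (sq_nonneg _) (norm_nonneg _)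
  have hd0 : ‖y₀ - x‖ ≤ R := mem_closedBall_iff_norm.1 hy₀
  have hbound : f y₀ ≤ 16 * C₁ * I₁ := by
    rcases hQ0.eq_or_lt with h0 | h0
    · rw [← h0]; positivity
    · have hd : 0 < R - ‖y₀ - x‖ := by
        rcases (sub_nonneg.2 hd0).eq_or_lt with h1 | h1
        · exfalso
          simp only [hf] at h0
          rw [← h1] at h0
          simp at h0
        · exact h1
      set δ := (R - ‖y₀ - x‖) / 2 with hδ
      have hδ0 : 0 < δ := by positivity
      have hsub : closedBall y₀ δ ⊆ closedBall x R := by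
        refine closedBall_subset_closedBall' ?_
        rw [dist_eq_norm]; linarith
      have e1 := H₁ U g D y₀ δ c hU h hg hQ hδ0 (hsub.trans hb)
      have e2 : ∫ z in ball y₀ δ, ‖g z - c‖ ^ 2 ≤ f y₀ / δ ^ 2 * I₁ := by
        have hii2 : IntegrableOn (fun z => ‖g z - c‖) (ball y₀ δ) :=
          hii.mono_set (ball_subset_closedBall.trans hsub)
        calc ∫ z in ball y₀ δ, ‖g z - c‖ ^ 2 ≤ ∫ z in ball y₀ δ, f y₀ / δ ^ 2 * ‖g z - c‖ := by
              refine setIntegral_mono_on ?_ (hii2.const_mul _) measurableSet_ball fun z hz => ?_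
              · exact (sob_int_sq h hb c).mono_set (ball_subset_closedBall.trans hsub)
              · have hzR : z ∈ closedBall x R := hsub (ball_subset_closedBall hz)
                have h1 : f z ≤ f y₀ := hmax hzR
                have h2 : δ ≤ R - ‖z - x‖ := by
                  have h3 : ‖z - x‖ ≤ ‖z - y₀‖ + ‖y₀ - x‖ := norm_sub_le_norm_sub_add_norm_sub _ _ _
                  have h4 : ‖z - y₀‖ < δ := mem_ball_iff_norm.1 hz
                  linarith
                have h5 : ‖g z - c‖ ≤ f y₀ / δ ^ 2 := by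
                  rw [le_div_iff₀ (by positivity)]
                  calc ‖g z - c‖ * δ ^ 2 ≤ ‖g z - c‖ * (R - ‖z - x‖) ^ 2 := by gcongr
                    _ = f z := by simp only [hf]; ring
                    _ ≤ f y₀ := h1
                calc ‖g z - c‖ ^ 2 = ‖g z - c‖ * ‖g z - c‖ := sq _
                  _ ≤ _ := mul_le_mul_of_nonneg_right h5 (norm_nonneg _)
          _ = f y₀ / δ ^ 2 * ∫ z in ball y₀ δ, ‖g z - c‖ := integral_const_mul _ _
          _ ≤ f y₀ / δ ^ 2 * I₁ := by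
              refine mul_le_mul_of_nonneg_left ?_ (by positivity)
              refine setIntegral_mono_set (hii.mono_set ball_subset_closedBall)
                (Eventually.of_forall fun z => norm_nonneg _) ?_
              refine (ball_subset_ball' ?_).eventuallyLE
              rw [dist_eq_norm]; linarith
      have e3 : f y₀ ^ 2 ≤ 16 * C₁ * I₁ * f y₀ := by
        have h1 : f y₀ ^ 2 = 16 * δ ^ 4 * ‖g y₀ - c‖ ^ 2 := by
          simp only [hf]
          have : R - ‖y₀ - x‖ = 2 * δ := by rw [hδ]; ring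
          rw [this]; ring
        rw [h1]
        calc 16 * δ ^ 4 * ‖g y₀ - c‖ ^ 2
            ≤ 16 * δ ^ 4 * (C₁ / δ ^ 2 * (f y₀ / δ ^ 2 * I₁)) := by
              refine mul_le_mul_of_nonneg_left (e1.trans ?_) (by positivity)
              exact mul_le_mul_of_nonneg_left e2 (by positivity)
          _ = _ := by field_simp
      rw [sq] at e3
      exact le_of_mul_le_mul_right e3 h0
  have hyR : y ∈ closedBall x R := by
    refine ball_subset_closedBall (ball_subset_ball ?_ hy)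
    linarith
  have k1 : f y ≤ f y₀ := hmax hyR
  have k2 : R / 2 ≤ R - ‖y - x‖ := by
    have := mem_ball_iff_norm.1 hy
    linarith
  have k3 : (R / 2) ^ 2 * ‖g y - c‖ ≤ 16 * C₁ * I₁ := by
    calc (R / 2) ^ 2 * ‖g y - c‖ ≤ (R - ‖y - x‖) ^ 2 * ‖g y - c‖ := by gcongr
      _ = f y := rfl
      _ ≤ _ := k1.trans hbound
  have hR2 : 0 < (R / 2) ^ 2 := by positivity
  refine le_of_mul_le_mul_left (k3.trans (le_of_eq ?_)) hR2
  field_simp
  ring

end Pool.Agent.H42.PH
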